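import Pool.Agent.Y55.Col.Space
import Pool.Agent.Y55.Col.Quad
import Pool.Agent.H350R3.MG.PLem

/-!
# The Laface–Ugaglia conjecture for collisions of general points of `ℙ³`

Two classes of pairs of a degree `d` and a multiset of multiplicities for which the conjecture holds.
They contain `t ^ 3` points of the same multiplicity in the cases `Case t μ d` (for `t ≤ 5` these are
all the degrees), and all the multisets of at least 27 multiplicities in the degrees outside a window,
and they are closed under collisions: in a system without surfaces, a point of multiplicity `μ` can be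
replaced by any points such that there is no surface of degree `μ - 1` with their multiplicities; in a
system of independent conditions, it can be replaced by any points which impose independent
conditions in degree `μ - 1`.
-/

set_option autoImplicit false

namespace Pool.Agent.Results.MP_ed30a9_ag.PerfectPowerCollisions

open MvPolynomial
open scoped LinearAlgebra.Projectivization
open Pool.Agent.H350R3.MG

/-- The vector space of the forms of degree `d` with multiplicity at least `m i` at the point `P i` of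
`ℙ³` for every `i`. The nonzero ones define the surfaces of `ℒ = ℒ_{3,d}(m_1, …, m_s)`. -/
noncomputable def forms {s : ℕ} (d : ℕ) (m : Fin s → ℕ) (P : Fin s → ℙ ℂ (Fin (3 + 1) → ℂ)) :
    Submodule ℂ (MvPolynomial (Fin (3 + 1)) ℂ) :=
  homogeneousSubmodule (Fin (3 + 1)) ℂ d ⊓
    Submodule.restrictScalars ℂ (⨅ i, primeIdeal (P i) ^ m i : Ideal (MvPolynomial (Fin (3 + 1)) ℂ))

/-- The projective dimension of `ℒ` (`-1` if it is empty). -/
noncomputable def dim {s : ℕ} (d : ℕ) (m : Fin s → ℕ) (P : Fin s → ℙ ℂ (Fin (3 + 1) → ℂ)) : ℤ :=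
  (Module.finrank ℂ ↥(forms d m P) : ℤ) - 1

/-- The virtual dimension. -/
def vdim {s : ℕ} (d : ℕ) (m : Fin s → ℕ) : ℤ :=
  ((d + 3).choose 3 : ℤ) - ∑ i, ((m i + 2).choose 3 : ℤ) - 1

/-- The expected dimension. -/
def edim {s : ℕ} (d : ℕ) (m : Fin s → ℕ) : ℤ := max (vdim d m) (-1)

/-- `ℒ` is special. -/
def Special {s : ℕ} (d : ℕ) (m : Fin s → ℕ) (P : Fin s → ℙ ℂ (Fin (3 + 1) → ℂ)) : Prop :=
  edim d m < dim d m P

/-- `ℒ` is Cremona reduced. -/
def CremonaReduced {s : ℕ} (d : ℕ) (m : Fin s → ℕ) : Prop :=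
  ∀ I : Finset (Fin s), I.card = 4 → ∑ i ∈ I, m i ≤ 2 * d

/-- The divisor classes of the blow-up: `(a, x)` is the class `a H - ∑ x_i E_i`. -/
abbrev Cls (s : ℕ) : Type := ℤ × (Fin s → ℤ)

/-- The triple intersection numbers of the classes `a H - ∑ x_i E_i`, computed with `H ^ 3 = 1`,
`E_i ^ 3 = 1`, all the other triple products of these generators being `0`. -/
def triple {s : ℕ} (D D' D'' : Cls s) : ℤ := D.1 * D'.1 * D''.1 - ∑ i, D.2 i * D'.2 i * D''.2 i

/-- The class of `ℒ`. -/
def cls {s : ℕ} (d : ℕ) (m : Fin s → ℕ) : Cls s := ((d : ℤ), fun i => (m i : ℤ))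

/-- The canonical class `-4 H + 2 ∑ E_i`. -/
def canonical {s : ℕ} : Cls s := (-4, fun _ => -2)

/-- The class `2 H - ∑_{i ∈ I} E_i` of the quadric through the points of `I`. -/
def quadric {s : ℕ} (I : Finset (Fin s)) : Cls s := (2, fun i => if i ∈ I then 1 else 0)

/-- Condition 1: `ℒ · ⟨p_i, p_j⟩ ≤ -2` for some `i ≠ j`. -/
def LineCondition {s : ℕ} (d : ℕ) (m : Fin s → ℕ) : Prop :=
  ∃ i j : Fin s, i ≠ j ∧ (d : ℤ) - m i - m j ≤ -2

/-- Condition 2: `Q · (ℒ - Q) · (ℒ - K) < 0` for the quadric `Q` through nine of the points. -/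
def QuadricCondition {s : ℕ} (d : ℕ) (m : Fin s → ℕ) : Prop :=
  ∃ I : Finset (Fin s), I.card = 9 ∧
    triple (quadric I) (cls d m - quadric I) (cls d m - canonical) < 0

/-- The statement of the conjecture of Laface and Ugaglia for `ℒ_{3,d}(m_1, …, m_s)` and the points
`P`: if `ℒ` is nonempty and Cremona reduced, it is special if and only if condition 1 or 2 holds. -/
def LafaceUgaglia {s : ℕ} (d : ℕ) (m : Fin s → ℕ) (P : Fin s → ℙ ℂ (Fin (3 + 1) → ℂ)) : Prop :=
  forms d m P ≠ ⊥ → CremonaReduced d m →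
    (Special d m P ↔ LineCondition d m ∨ QuadricCondition d m)

/-- The cases for `t ^ 3` points of multiplicity `μ` in degree `d`. -/
def Case (t μ d : ℕ) : Prop :=
  t ≤ 5 ∨ ∀ c : ℕ, d = t * μ + c → c + 3 ≤ t → t ^ 3 < (t + c + 3).choose 3 →
    (c + 3).choose 3 ≤ μ

/-- The smallest class of pairs of a degree `d` and a multiset `M` of multiplicities of points of `ℙ³`
with the following properties:

* it contains `t ^ 3` points of multiplicity `μ` in degree `d` in the cases `Case t μ d`, if
  `binom (d + 3) 3 ≤ t ^ 3 * binom (μ + 2) 3`;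
* it contains every multiset `M` of `s ≥ 27` multiplicities in the degrees `d` with
  `s ^ (2 / 3) * d < ∑ M`;
* it is closed under adding a point and under decreasing the degree;
* if it contains `{μ} + M` in degree `d` and `M'` in degree `μ - 1`, it contains `M' + M` in
  degree `d`. -/
inductive NoForms : ℕ → Multiset ℕ → Prop
  | powers (t μ d : ℕ) (ht : 1 ≤ t) (hc : Case t μ d)
      (h : (d + 3).choose 3 ≤ t ^ 3 * (μ + 2).choose 3) :
      NoForms d (Multiset.replicate (t ^ 3) μ)
  | many (d : ℕ) (M : Multiset ℕ) (hM : 27 ≤ M.card)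
      (h : M.card ^ 2 * d ^ 3 < M.sum ^ 3) : NoForms d M
  | point (d b : ℕ) (M : Multiset ℕ) (h : NoForms d M) : NoForms d (b ::ₘ M)
  | degree (d d' : ℕ) (M : Multiset ℕ) (hd : d' ≤ d) (h : NoForms d M) : NoForms d' M
  | collision (d μ : ℕ) (M M' : Multiset ℕ) (h : NoForms d (μ ::ₘ M))
      (h' : NoForms (μ - 1) M') : NoForms d (M' + M)

/-- The smallest class of pairs of a degree `d` and a multiset `M` of multiplicities of points of `ℙ³`
with the following properties:

* it contains `t ^ 3` points of multiplicity `μ` in degree `d` in the cases `Case t μ d`, if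
  `t ^ 3 * binom (μ + 2) 3 ≤ binom (d + 3) 3`;
* it contains every multiset `M` of `s ≥ 27` multiplicities in the degrees `d` with
  `s ^ (1 / 3) * (a + 2) ≤ d - 2` for all `a` in `M`;
* it is closed under removing a point and under increasing the degree;
* if it contains `{μ} + M` in degree `d` and `M'` in degree `μ - 1`, where `μ ≥ 1`, it contains
  `M' + M` in degree `d`. -/
inductive Independent : ℕ → Multiset ℕ → Prop
  | powers (t μ d : ℕ) (ht : 1 ≤ t) (hc : Case t μ d)
      (h : t ^ 3 * (μ + 2).choose 3 ≤ (d + 3).choose 3) :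
      Independent d (Multiset.replicate (t ^ 3) μ)
  | many (d : ℕ) (M : Multiset ℕ) (hM : 27 ≤ M.card)
      (h : ∀ a ∈ M, M.card * (a + 2) ^ 3 ≤ (d - 2) ^ 3) : Independent d M
  | remove (d b : ℕ) (M : Multiset ℕ) (h : Independent d (b ::ₘ M)) : Independent d M
  | degree (d d' : ℕ) (M : Multiset ℕ) (hd : d ≤ d') (h : Independent d M) : Independent d' M
  | collision (d μ : ℕ) (M M' : Multiset ℕ) (hμ : 1 ≤ μ) (h : Independent d (μ ::ₘ M))
      (h' : Independent (μ - 1) M') : Independent d (M' + M)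

theorem triple_quadric {s : ℕ} (d : ℕ) (m : Fin s → ℕ) (I : Finset (Fin s)) :
    triple (quadric I) (cls d m - quadric I) (cls d m - canonical) =
      2 * ((d : ℤ) - 2) * ((d : ℤ) + 4) - ∑ i ∈ I, ((m i : ℤ) - 1) * ((m i : ℤ) + 2) := by
  classical
  unfold triple quadric cls canonical
  have h : ∀ i : Fin s, (if i ∈ I then (1 : ℤ) else 0) *
      ((m i : ℤ) - if i ∈ I then (1 : ℤ) else 0) * ((m i : ℤ) - (-2)) =
      if i ∈ I then ((m i : ℤ) - 1) * ((m i : ℤ) + 2) else 0 := by
    intro i
    split_ifs <;> ring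
  have h2 : ∑ i : Fin s, (if i ∈ I then (1 : ℤ) else 0) *
      ((m i : ℤ) - if i ∈ I then (1 : ℤ) else 0) * ((m i : ℤ) - (-2)) =
      ∑ i ∈ I, ((m i : ℤ) - 1) * ((m i : ℤ) + 2) := by
    rw [Finset.sum_congr rfl fun i _ => h i, Finset.sum_ite_mem, Finset.univ_inter]
  have h3 : (2 : ℤ) * ((d : ℤ) - 2) * ((d : ℤ) - (-4)) = 2 * ((d : ℤ) - 2) * ((d : ℤ) + 4) := by
    ring
  calc _ = (2 : ℤ) * ((d : ℤ) - 2) * ((d : ℤ) - (-4)) -
        ∑ i : Fin s, (if i ∈ I then (1 : ℤ) else 0) *
          ((m i : ℤ) - if i ∈ I then (1 : ℤ) else 0) * ((m i : ℤ) - (-2)) := rfl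
    _ = _ := by rw [h2, h3]

/-! ### Pairs of multiplicities -/

/-- The multiplicities and their sums in pairs are at most `d + 1`. -/
def Pairs (d : ℕ) (M : Multiset ℕ) : Prop :=
  (∀ a ∈ M, a ≤ d + 1) ∧ ∀ a b : ℕ, a ::ₘ {b} ≤ M → a + b ≤ d + 1

lemma Pairs.mono {d d' : ℕ} {M M' : Multiset ℕ} (hd : d ≤ d') (hM : M' ≤ M) (h : Pairs d M) :
    Pairs d' M' :=
  ⟨fun a ha => (h.1 a (Multiset.mem_of_le hM ha)).trans (by omega),
    fun a b hab => (h.2 a b (hab.trans hM)).trans (by omega)⟩

lemma six_choose (n : ℕ) : 6 * (n + 2).choose 3 = (n + 2) * (n + 1) * n := by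
  have h := Nat.descFactorial_eq_factorial_mul_choose (n + 2) 3
  have e1 : (n + 2).descFactorial 3 = (n + 2) * (n + 1) * n := by
    simp [Nat.descFactorial]
    ring
  have e2 : Nat.factorial 3 = 6 := rfl
  rw [e1, e2] at h
  exact h.symm

lemma pairs_powers {t μ d : ℕ} (ht : 1 ≤ t)
    (h : t ^ 3 * (μ + 2).choose 3 ≤ (d + 3).choose 3) :
    Pairs d (Multiset.replicate (t ^ 3) μ) := by
  have h1 := six_choose μ
  have h2 := six_choose (d + 1)
  have e : d + 1 + 2 = d + 3 := by ring
  rw [e] at h2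
  constructor
  · intro a ha
    rw [Multiset.eq_of_mem_replicate ha]
    by_contra hcon
    push Not at hcon
    have h3 : (d + 3) * (d + 1 + 1) * (d + 1) < (μ + 2) * (μ + 1) * μ :=
      Nat.mul_lt_mul_of_lt_of_lt (Nat.mul_lt_mul_of_lt_of_lt (by omega) (by omega)) (by omega)
    have h4 : 1 * (μ + 2).choose 3 ≤ t ^ 3 * (μ + 2).choose 3 :=
      Nat.mul_le_mul_right _ (Nat.one_le_pow _ _ ht)
    omega
  · intro a b hab
    have ha := Multiset.eq_of_mem_replicate (Multiset.mem_of_le hab (Multiset.mem_cons_self a {b}))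
    have hb := Multiset.eq_of_mem_replicate (Multiset.mem_of_le hab
      (Multiset.mem_cons_of_mem (Multiset.mem_singleton_self b)))
    have hcard := Multiset.card_le_card hab
    rw [Multiset.card_cons, Multiset.card_singleton, Multiset.card_replicate] at hcard
    have ht2 : 2 ≤ t := by
      by_contra hcon
      have h1 : t = 1 := by omega
      rw [h1] at hcard
      omega
    rw [ha, hb]
    by_contra hcon
    push Not at hcon
    have h5 : 2 ^ 3 * (μ + 2).choose 3 ≤ t ^ 3 * (μ + 2).choose 3 :=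
      Nat.mul_le_mul_right _ (Nat.pow_le_pow_left ht2 3)
    have h6 : (d + 3) * (d + 1 + 1) * (d + 1) ≤ (2 * μ + 1) * (2 * μ) * (2 * μ - 1) :=
      Nat.mul_le_mul (Nat.mul_le_mul (by omega) (by omega)) (by omega)
    have hμ : 1 ≤ μ := by omega
    have h7 : (2 * μ + 1) * (2 * μ) * (2 * μ - 1) < 2 ^ 3 * ((μ + 2) * (μ + 1) * μ) := by
      obtain ⟨ν, rfl⟩ : ∃ ν, μ = ν + 1 := ⟨μ - 1, by omega⟩
      have e : 2 * (ν + 1) - 1 = 2 * ν + 1 := by omega
      rw [e]
      nlinarith [Nat.zero_le (ν ^ 3), Nat.zero_le (ν ^ 2)]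
    omega

lemma pairs_many {d : ℕ} {M : Multiset ℕ} (hM : 27 ≤ M.card)
    (h : ∀ a ∈ M, M.card * (a + 2) ^ 3 ≤ (d - 2) ^ 3) : Pairs d M := by
  have h1 : ∀ a ∈ M, 3 * (a + 2) ≤ d - 2 := by
    intro a ha
    have h2 : 27 * (a + 2) ^ 3 ≤ (d - 2) ^ 3 := (Nat.mul_le_mul_right _ hM).trans (h a ha)
    have h3 : (3 * (a + 2)) ^ 3 ≤ (d - 2) ^ 3 := by
      calc (3 * (a + 2)) ^ 3 = 27 * (a + 2) ^ 3 := by ring
        _ ≤ _ := h2
    exact le_of_pow_le_pow_left₀ (by norm_num) (Nat.zero_le _) h3
  constructor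
  · intro a ha
    have := h1 a ha
    omega
  · intro a b hab
    have ha := h1 a (Multiset.mem_of_le hab (Multiset.mem_cons_self a {b}))
    have hb := h1 b (Multiset.mem_of_le hab
      (Multiset.mem_cons_of_mem (Multiset.mem_singleton_self b)))
    omega

lemma pairs_collision {d μ : ℕ} {M M' : Multiset ℕ} (hμ : 1 ≤ μ) (h : Pairs d (μ ::ₘ M))
    (h' : Pairs (μ - 1) M') : Pairs d (M' + M) := by
  have hμd : μ ≤ d + 1 := h.1 μ (Multiset.mem_cons_self _ _)
  have e : μ - 1 + 1 = μ := by omega
  have h1 : ∀ a ∈ M', a ≤ μ := fun a ha => e ▸ h'.1 a ha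
  have h2 : ∀ b ∈ M, μ + b ≤ d + 1 := fun b hb =>
    h.2 μ b (Multiset.cons_le_cons μ (Multiset.singleton_le.2 hb))
  constructor
  · intro a ha
    rcases Multiset.mem_add.1 ha with ha | ha
    · exact (h1 a ha).trans hμd
    · exact h.1 a (Multiset.mem_cons_of_mem ha)
  · intro a b hab
    have ha : a ∈ M' + M := Multiset.mem_of_le hab (Multiset.mem_cons_self a {b})
    rcases Multiset.mem_add.1 ha with ha | ha
    · obtain ⟨N, rfl⟩ := Multiset.exists_cons_of_mem ha
      rw [Multiset.cons_add, Multiset.cons_le_cons_iff, Multiset.singleton_le,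
        Multiset.mem_add] at hab
      rcases hab with hb | hb
      · have := h'.2 a b (Multiset.cons_le_cons a (Multiset.singleton_le.2 hb))
        omega
      · have h3 := h1 a ha
        have h4 := h2 b hb
        omega
    · obtain ⟨N, rfl⟩ := Multiset.exists_cons_of_mem ha
      rw [Multiset.add_cons, Multiset.cons_le_cons_iff, Multiset.singleton_le,
        Multiset.mem_add] at hab
      rcases hab with hb | hb
      · have h3 := h1 b hb
        have h4 := h2 a ha
        omega
      · exact h.2 a b ((Multiset.cons_le_cons a (Multiset.singleton_le.2 hb)).trans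
          (Multiset.le_cons_self _ _))

theorem pairs {d : ℕ} {M : Multiset ℕ} (h : Independent d M) : Pairs d M := by
  induction h with
  | powers t μ d ht hc h => exact pairs_powers ht h
  | many d M hM h => exact pairs_many hM h
  | remove d b M h ih => exact ih.mono le_rfl (Multiset.le_cons_self _ _)
  | degree d d' M hd h ih => exact ih.mono hd le_rfl
  | collision d μ M M' hμ h h' ih ih' => exact pairs_collision hμ ih ih'

theorem not_line {s d : ℕ} {m : Fin s → ℕ}
    (h : Pairs d ((Finset.univ : Finset (Fin s)).val.map m)) : ¬ LineCondition d m := by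
  rintro ⟨i, j, hij, hlt⟩
  have h1 : i ::ₘ {j} ≤ (Finset.univ : Finset (Fin s)).val := by
    rw [Multiset.le_iff_subset]
    · intro x _
      exact Finset.mem_univ x
    · rw [Multiset.nodup_cons]
      exact ⟨by rwa [Multiset.mem_singleton], Multiset.nodup_singleton _⟩
  have h2 := Multiset.map_le_map (f := m) h1
  rw [Multiset.map_cons, Multiset.map_singleton] at h2
  have h3 := h.2 _ _ h2
  omega

theorem not_quadric {s d : ℕ} {m : Fin s → ℕ}
    (h : ∀ I : Finset (Fin s), I.card ≤ 9 → ∑ i ∈ I, (m i + 1).choose 2 ≤ (d + 1) ^ 2) :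
    ¬ QuadricCondition d m := by
  rintro ⟨I, hI, hlt⟩
  rw [triple_quadric] at hlt
  have h1 := h I hI.le
  have h2 : ∀ a : ℕ, ((a : ℤ) - 1) * ((a : ℤ) + 2) = 2 * ((a + 1).choose 2 : ℕ) - 2 := by
    intro a
    have h3 : (a + 1).choose 2 * 2 = (a + 1) * a := by
      rw [Nat.choose_two_right, Nat.add_sub_cancel]
      exact Nat.div_mul_cancel (even_iff_two_dvd.1 (by
        rw [mul_comm]
        exact Nat.even_mul_succ_self a))
    have h4 : (((a + 1).choose 2 : ℕ) : ℤ) * 2 = ((a : ℤ) + 1) * a := by exact_mod_cast h3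
    linarith
  have h3 : ∑ i ∈ I, ((m i : ℤ) - 1) * ((m i : ℤ) + 2) =
      2 * ((∑ i ∈ I, (m i + 1).choose 2 : ℕ) : ℤ) - 18 := by
    rw [Finset.sum_congr rfl fun i _ => h2 (m i), Finset.sum_sub_distrib, ← Finset.mul_sum,
      Finset.sum_const, hI]
    push_cast
    ring
  have h4 : ((∑ i ∈ I, (m i + 1).choose 2 : ℕ) : ℤ) ≤ ((d : ℤ) + 1) ^ 2 := by exact_mod_cast h1
  rw [h3] at hlt
  nlinarith

/-! ### The classes -/

theorem emp {d : ℕ} {M : Multiset ℕ} (h : NoForms d M) : Pool.Agent.Y55.Col.Emp 3 (d + 1) M := by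
  induction h with
  | powers t μ d ht hc h => exact Pool.Agent.Y55.Col.cube_emp ht hc h
  | many d M hM h => exact Pool.Agent.Y55.Col.many3_emp hM h
  | point d b M h ih => exact ih.point b
  | degree d d' M hd h ih => exact ih.mono (by omega)
  | collision d μ M M' h h' ih ih' => exact ih.collision (ih'.mono (by omega))

theorem ind {d : ℕ} {M : Multiset ℕ} (h : Independent d M) :
    Pool.Agent.Y55.Col.Ind 2 (d + 1) M := by
  induction h with
  | powers t μ d ht hc h => exact Pool.Agent.Y55.Col.cube_ind ht hc h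
  | many d M hM h => exact Pool.Agent.Y55.Col.many3_ind hM h
  | remove d b M h ih => exact ih.remove
  | degree d d' M hd h ih => exact ih.degree (by omega)
  | collision d μ M M' hμ h h' ih ih' =>
    rw [Nat.sub_add_cancel hμ] at ih'
    exact ih.collision ih'

/-- The Laface–Ugaglia conjecture for general points of `ℙ³` whose multiplicities belong, together
with the degree, to the class `NoForms` or to the class `Independent`. -/
theorem result (s d : ℕ) (m : Fin s → ℕ) :
    (NoForms d ((Finset.univ : Finset (Fin s)).val.map m) →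
      Generally (fun P : Fin s → ℙ ℂ (Fin (3 + 1) → ℂ) =>
        forms d m P = ⊥ ∧ ¬ Special d m P ∧ LafaceUgaglia d m P)) ∧
    (Independent d ((Finset.univ : Finset (Fin s)).val.map m) →
      Generally (fun P : Fin s → ℙ ℂ (Fin (3 + 1) → ℂ) =>
        dim d m P = vdim d m ∧ ¬ Special d m P ∧ ¬ LineCondition d m ∧ ¬ QuadricCondition d m ∧
          LafaceUgaglia d m P)) := by
  constructor
  · intro hT
    obtain ⟨D, hD, h⟩ := Pool.Agent.Y55.Col.general_of_emp (n := 2) (emp hT)
    refine generally_of_poly D hD fun v hv hp => ?_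
    have h1 : forms d m (fun i => Projectivization.mk ℂ (v i) (hv i)) = ⊥ := by
      have h2 : Pool.Agent.H938R2.forms (3 + 1) d m v = ⊥ := h v hp
      rw [← Pool.Agent.Y55.Col.pforms_eq (r := 3) m v hv] at h2
      exact h2
    refine ⟨h1, ?_, fun hne => absurd h1 hne⟩
    unfold Special dim edim
    rw [h1, finrank_bot]
    push_cast
    rw [not_lt]
    exact (le_max_right _ _).trans' (by norm_num)
  · intro hT
    obtain ⟨D, hD, h⟩ := Pool.Agent.Y55.Col.general_of_ind (n := 2) (ind hT)
    refine generally_of_poly D hD fun v hv hp => ?_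
    have h1 := h v hp
    have h2 : ¬ LineCondition d m := not_line (pairs hT)
    have h3 : ¬ QuadricCondition d m :=
      not_quadric fun I hI => Pool.Agent.Y55.Col.quad v hv h1 I hI
    have h4 : dim d m (fun i => Projectivization.mk ℂ (v i) (hv i)) = vdim d m := by
      unfold dim vdim
      have e : forms d m (fun i => Projectivization.mk ℂ (v i) (hv i)) =
        Pool.Agent.H938R2.forms (2 + 2) d m v := Pool.Agent.Y55.Col.pforms_eq (r := 3) m v hv
      rw [e]
      have h5 : (Module.finrank ℂ (Pool.Agent.H938R2.forms (2 + 2) d m v) : ℤ) =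
          ((d + 3).choose 3 : ℤ) - ∑ i, ((m i + 2).choose 3 : ℤ) := by
        rw [eq_sub_iff_add_eq]
        exact_mod_cast h1
      rw [h5]
    have h6 : ¬ Special d m (fun i => Projectivization.mk ℂ (v i) (hv i)) := by
      unfold Special edim
      rw [h4, not_lt]
      exact le_max_left _ _
    refine ⟨h4, h6, h2, h3, fun _ _ => ⟨fun h => absurd h h6, ?_⟩⟩
    rintro (h | h)
    · exact absurd h h2
    · exact absurd h h3

end Pool.Agent.Results.MP_ed30a9_ag.PerfectPowerCollisions
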